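import Pool.Agent.G02.StmtsR

/-!
# AD1: the class of a sum at the root `e`
-/

set_option autoImplicit false

namespace Pool.Agent.G02.H22

open Polynomial Pool.Agent.NJ WeierstrassCurve.Affine

noncomputable section

variable {K : Type} [Field K]

/-- the value of the class of a point -/
def uv [DecidableEq K] (W : WeierstrassCurve K) (e b : K) : W.toAffine.Point → K
  | .zero => 1
  | .some x _ _ => if x = e then b else x - e

theorem d0_iff [DecidableEq K] (W : WeierstrassCurve K) (e b c : K)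
    (P : W.toAffine.Point) :
    D0 W e b c P ↔ IsSquare (c * uv W e b P) := by
  cases P with
  | zero =>
    show IsSquare c ↔ IsSquare (c * 1)
    rw [mul_one]
  | some x y h =>
    show ((x ≠ e → IsSquare (c * (x - e))) ∧ (x = e → IsSquare (c * b))) ↔
      IsSquare (c * (if x = e then b else x - e))
    by_cases hx : x = e
    · rw [if_pos hx]
      exact ⟨fun h => h.2 hx, fun h => ⟨fun h' => absurd hx h', fun _ => h⟩⟩
    · rw [if_neg hx]
      exact ⟨fun h => h.1 hx, fun h => ⟨fun _ => h, fun h' => absurd h' hx⟩⟩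

theorem uv_ne [DecidableEq K] (W : WeierstrassCurve K) {e b : K} (hb : b ≠ 0)
    (P : W.toAffine.Point) : uv W e b P ≠ 0 := by
  cases P with
  | zero => exact one_ne_zero
  | some x y h =>
    show (if x = e then b else x - e) ≠ 0
    split_ifs with h1
    · exact hb
    · exact sub_ne_zero.2 h1

/-- the square of `2 y + a₁ x + a₃` -/
theorem sq_eq {W : WeierstrassCurve K} {e a b : K} (hR : Rt1 W e a b) {x y : K}
    (h : W.toAffine.Equation x y) :
    (2 * y + W.a₁ * x + W.a₃) ^ 2 = 4 * ((x - e) * ((x - e) ^ 2 + a * (x - e) + b)) := by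
  rw [WeierstrassCurve.Affine.equation_iff] at h
  obtain ⟨h1, h2, h3⟩ := hR
  rw [WeierstrassCurve.b₂] at h1
  rw [WeierstrassCurve.b₄] at h2
  rw [WeierstrassCurve.b₆] at h3
  linear_combination 4 * h + x ^ 2 * h1 + 2 * x * h2 + h3

/-- the point of order two plus another point -/
theorem tors_add [CharZero K] [DecidableEq K] {W : WeierstrassCurve K} {e a b : K}
    (hR : Rt1 W e a b) {y₁ x₂ y₂ : K} (h₁ : W.toAffine.Equation e y₁)
    (h₂ : W.toAffine.Equation x₂ y₂) (hx : x₂ ≠ e) :
    (W.toAffine.addX e x₂ (W.toAffine.slope e x₂ y₁ y₂) - e) * (x₂ - e) = b := by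
  have e1 := sq_eq hR h₁
  have e2 := sq_eq hR h₂
  have e3 : 2 * y₁ + W.a₁ * e + W.a₃ = 0 := by
    have : (2 * y₁ + W.a₁ * e + W.a₃) ^ 2 = 0 := by
      rw [e1]
      ring
    exact pow_eq_zero_iff (two_ne_zero) |>.1 this
  have hx' : x₂ - e ≠ 0 := sub_ne_zero.2 hx
  rw [WeierstrassCurve.Affine.slope_of_X_ne hx.symm, WeierstrassCurve.Affine.addX]
  set l := (y₁ - y₂) / (e - x₂) with hl
  have hl' : l * (x₂ - e) = y₂ - y₁ := by
    rw [hl, div_mul_eq_mul_div, div_eq_iff (sub_ne_zero.2 hx.symm)]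
    ring
  obtain ⟨h1, h2, h3⟩ := hR
  rw [WeierstrassCurve.b₂] at h1
  have e4 : (2 * l + W.a₁) * (x₂ - e) = 2 * y₂ + W.a₁ * x₂ + W.a₃ := by
    linear_combination 2 * hl' - e3
  have e5 : (2 * l + W.a₁) ^ 2 * (x₂ - e) = 4 * ((x₂ - e) ^ 2 + a * (x₂ - e) + b) := by
    have e6 : ((2 * l + W.a₁) ^ 2 * (x₂ - e)) * (x₂ - e) =
        4 * ((x₂ - e) ^ 2 + a * (x₂ - e) + b) * (x₂ - e) := by
      linear_combination ((2 * l + W.a₁) * (x₂ - e) + (2 * y₂ + W.a₁ * x₂ + W.a₃)) * e4 + e2
    exact mul_right_cancel₀ hx' e6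
  have h4 : (4 : K) ≠ 0 := by norm_num
  apply mul_left_cancel₀ h4
  linear_combination e5 - (x₂ - e) * h1

/-- the general case -/
theorem gen_add [CharZero K] [DecidableEq K] {W : WeierstrassCurve K} {e a b : K}
    (hR : Rt1 W e a b) {x₁ y₁ x₂ y₂ : K} (h₁ : W.toAffine.Equation x₁ y₁)
    (h₂ : W.toAffine.Equation x₂ y₂) (hxy : ¬(x₁ = x₂ ∧ y₁ = W.toAffine.negY x₂ y₂)) :
    IsSquare ((x₁ - e) * (x₂ - e) *
      (W.toAffine.addX x₁ x₂ (W.toAffine.slope x₁ x₂ y₁ y₂) - e)) := by
  have e1 := congrArg (Polynomial.eval e)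
    (WeierstrassCurve.Affine.addPolynomial_slope h₁ h₂ hxy)
  set l := W.toAffine.slope x₁ x₂ y₁ y₂ with hl
  set x₃ := W.toAffine.addX x₁ x₂ l with hx₃
  rw [WeierstrassCurve.Affine.addPolynomial, WeierstrassCurve.Affine.linePolynomial,
    WeierstrassCurve.Affine.polynomial] at e1
  simp only [eval_neg, eval_mul, eval_sub, eval_add, eval_pow, eval_X, eval_C] at e1
  obtain ⟨h1, h2, h3⟩ := hR
  rw [WeierstrassCurve.b₂] at h1
  rw [WeierstrassCurve.b₄] at h2
  rw [WeierstrassCurve.b₆] at h3
  refine ⟨(2 * (l * (e - x₁) + y₁) + W.a₁ * e + W.a₃) / 2, ?_⟩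
  have h4 : (4 : K) ≠ 0 := by norm_num
  apply mul_left_cancel₀ h4
  have h5 : 4 * ((2 * (l * (e - x₁) + y₁) + W.a₁ * e + W.a₃) / 2 *
      ((2 * (l * (e - x₁) + y₁) + W.a₁ * e + W.a₃) / 2)) =
      (2 * (l * (e - x₁) + y₁) + W.a₁ * e + W.a₃) ^ 2 := by
    ring
  rw [h5]
  linear_combination -4 * e1 - e ^ 2 * h1 - 2 * e * h2 - h3

theorem class_add [CharZero K] [DecidableEq K] {W : WeierstrassCurve K} {e a b : K}
    (hR : Rt1 W e a b) (hb : b ≠ 0) (P Q : W.toAffine.Point) :
    IsSquare (uv W e b P * uv W e b Q * uv W e b (P + Q)) := by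
  have hone : uv W e b 0 = 1 := rfl
  have hsome : ∀ (x y : K) (h : W.toAffine.Nonsingular x y),
      uv W e b (.some x y h) = if x = e then b else x - e := fun _ _ _ => rfl
  have key : ∀ (y₁ x₂ y₂ : K) (h₁ : W.toAffine.Nonsingular e y₁)
      (h₂ : W.toAffine.Nonsingular x₂ y₂), x₂ ≠ e →
      uv W e b (.some e y₁ h₁ + .some x₂ y₂ h₂) * (x₂ - e) = b := by
    intro y₁ x₂ y₂ h₁ h₂ hx
    rw [WeierstrassCurve.Affine.Point.add_of_X_ne hx.symm, hsome]
    have h3 := tors_add hR h₁.1 h₂.1 hx
    have h4 : W.toAffine.addX e x₂ (W.toAffine.slope e x₂ y₁ y₂) ≠ e := by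
      intro h
      rw [h, sub_self, zero_mul] at h3
      exact hb h3.symm
    rw [if_neg h4]
    exact h3
  cases P with
  | zero =>
    rw [← WeierstrassCurve.Affine.Point.zero_def, zero_add, hone, one_mul]
    exact ⟨_, rfl⟩
  | some x₁ y₁ h₁ =>
    cases Q with
    | zero =>
      rw [← WeierstrassCurve.Affine.Point.zero_def, add_zero, hone, mul_one]
      exact ⟨_, rfl⟩
    | some x₂ y₂ h₂ =>
      by_cases hxy : x₁ = x₂ ∧ y₁ = W.toAffine.negY x₂ y₂
      · rw [WeierstrassCurve.Affine.Point.add_of_Y_eq hxy.1 hxy.2, hone, mul_one, hsome, hsome,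
          hxy.1]
        exact ⟨_, rfl⟩
      · by_cases hx1 : x₁ = e
        · by_cases hx2 : x₂ = e
          · exfalso
            apply hxy
            refine ⟨hx1.trans hx2.symm, ?_⟩
            have e1 := sq_eq hR h₁.1
            have e2 := sq_eq hR h₂.1
            rw [hx1, sub_self, zero_mul, mul_zero] at e1
            rw [hx2, sub_self, zero_mul, mul_zero] at e2
            have e3 := pow_eq_zero_iff (two_ne_zero) |>.1 e1
            have e4 := pow_eq_zero_iff (two_ne_zero) |>.1 e2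
            rw [WeierstrassCurve.Affine.negY, hx2]
            have h2 : (2 : K) ≠ 0 := two_ne_zero
            apply mul_left_cancel₀ h2
            linear_combination e3 + e4
          · subst hx1
            have h3 := key y₁ x₂ y₂ h₁ h₂ hx2
            rw [hsome, hsome, if_pos rfl, if_neg hx2]
            refine ⟨b, ?_⟩
            linear_combination b * h3
        · by_cases hx2 : x₂ = e
          · subst hx2
            have h3 := key y₂ x₁ y₁ h₂ h₁ hx1
            rw [add_comm] at h3
            rw [hsome, hsome, if_pos rfl, if_neg hx1]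
            refine ⟨b, ?_⟩
            linear_combination b * h3
          · have hadd := WeierstrassCurve.Affine.Point.add_some hxy (h₁ := h₁) (h₂ := h₂)
            by_cases hx3 : W.toAffine.addX x₁ x₂ (W.toAffine.slope x₁ x₂ y₁ y₂) = e
            · have h4 : (WeierstrassCurve.Affine.Point.some _ _ h₁ + .some _ _ h₂) +
                  -(.some _ _ h₂) = .some _ _ h₁ := add_neg_cancel_right _ _
              rw [hadd, WeierstrassCurve.Affine.Point.neg_some] at h4
              have h5 : ∀ (x y : K) (h : W.toAffine.Nonsingular x y), x = e →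
                  uv W e b (.some x y h + .some _ _ ((W.toAffine.nonsingular_neg _ _).2 h₂)) *
                    (x₂ - e) = b := by
                intro x y h hx
                subst hx
                exact key y x₂ _ h _ hx2
              have h6 := h5 _ _ (WeierstrassCurve.Affine.nonsingular_add h₁ h₂ hxy) hx3
              rw [h4] at h6
              rw [hadd, hsome, hsome, hsome, if_neg hx1, if_neg hx2, if_pos hx3]
              rw [hsome, if_neg hx1] at h6
              refine ⟨b, ?_⟩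
              linear_combination b * h6
            · rw [hadd, hsome, hsome, hsome, if_neg hx1, if_neg hx2, if_neg hx3]
              exact gen_add hR h₁.1 h₂.1 hxy

theorem ad1 : Ad1Stmt := by
  intro K _ _ _ W e a b hR hb _ c d P Q hc hd hP hQ
  rw [d0_iff] at hP hQ ⊢
  obtain ⟨r, hr⟩ := hP
  obtain ⟨s, hs⟩ := hQ
  obtain ⟨t, ht⟩ := class_add hR hb P Q
  have hu := uv_ne W (e := e) hb P
  have hv := uv_ne W (e := e) hb Q
  set u := uv W e b P
  set v := uv W e b Q
  set w := uv W e b (P + Q)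
  refine ⟨r * s * t / (u * v), ?_⟩
  field_simp
  linear_combination (d * v) * (u * v * w) * hr + r * r * (u * v * w) * hs + r * r * (s * s) * ht

end

end Pool.Agent.G02.H22
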