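import Pool.Agent.G02.Stmts

/-!
# GDA: good parameters from recipe A
-/

set_option autoImplicit false

namespace Pool.Agent.G02.H22

open Pool.Agent.NJ

theorem gda (tra : TraStmt) (scl : SclStmt) : GdaStmt := by
  intro k p q r hq hA
  obtain ⟨h1, h2, h3⟩ := tra k p q r hA
  have hk : k ≠ 0 := hA.sqf.ne_zero
  have hkQ : (k : ℚ) ≠ 0 := by exact_mod_cast hk
  have hp0 : (0 : ℚ) < p := by exact_mod_cast hA.pp.pos
  have hq0 : (0 : ℚ) < q := by exact_mod_cast hA.pq.pos
  have hr0 : (0 : ℚ) < r := by exact_mod_cast hA.pr.pos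
  have hp2 : p ≠ 2 := by
    intro h
    have := hA.mp
    omega
  have hr : (r : ℚ) = 2 * q - p := by exact_mod_cast hA.hr
  have ht0 : (0 : ℚ) < 2 * p / q := by positivity
  have ht4 : (2 * p / q - 4 : ℚ) = -(2 * r / q) := by
    rw [hr]
    field_simp
    ring
  have : Fact p.Prime := ⟨hA.pp⟩
  have hns : ¬ IsSquare (2 * p / q : ℚ) := by
    rintro ⟨s, hs⟩
    have hs0 : s ≠ 0 := by
      rintro rfl
      rw [mul_zero] at hs
      exact ht0.ne' hs
    have e1 : padicValRat p (2 * p / q : ℚ) = 1 := by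
      rw [padicValRat.div (by positivity) hq0.ne', padicValRat.mul (by norm_num) hp0.ne',
        padicValRat.self hA.pp.one_lt]
      have e2 : padicValRat p (2 : ℚ) = 0 := by
        have : padicValNat p 2 = 0 := by
          apply padicValNat.eq_zero_of_not_dvd
          intro h
          exact hp2 ((Nat.prime_dvd_prime_iff_eq hA.pp Nat.prime_two).1 h)
        have h' := padicValRat.of_nat (p := p) (n := 2)
        rw [this] at h'
        simpa using h'
      have e3 : padicValRat p (q : ℚ) = 0 := by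
        have : padicValNat p q = 0 := by
          apply padicValNat.eq_zero_of_not_dvd
          intro h
          exact hA.ne ((Nat.prime_dvd_prime_iff_eq hA.pp hA.pq).1 h)
        rw [padicValRat.of_nat, this]
        rfl
      rw [e2, e3]
      norm_num
    rw [hs, padicValRat.mul hs0 hs0] at e1
    omega
  have hns4 : ¬ IsSquare ((2 * p / q : ℚ) * (2 * p / q - 4)) := by
    rintro ⟨s, hs⟩
    rw [ht4] at hs
    have h5 : (0 : ℚ) < 2 * p / q * (2 * r / q) := by positivity
    have h6 : 0 ≤ s * s := mul_self_nonneg s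
    linarith [hs, h5, h6, neg_mul_eq_mul_neg (2 * p / q : ℚ) (2 * r / q)]
  refine ⟨fun hk4 hl => ⟨hkQ, hns, hns4, ?_⟩, fun hodd => ⟨?_, hns, hns4, ?_⟩,
    fun hk1 => ⟨?_, hns, hns4, ?_⟩⟩
  · rw [← scl _ _ q hq0.ne']
    have a1 : (k : ℚ) * (2 * p / q) * q ^ 2 = ((2 * k * p * q : ℤ) : ℚ) := by
      push_cast
      field_simp
    have a2 : (k : ℚ) ^ 2 * (2 * p / q) * q ^ 4 = ((2 * k ^ 2 * p * q ^ 3 : ℤ) : ℚ) := by
      push_cast
      field_simp
    rw [a1, a2]
    exact h1 hk4 hl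
  · exact mul_ne_zero hkQ ht0.ne'
  · rw [← scl _ _ q hq0.ne']
    have a1 : (k : ℚ) * (2 * p / q) * (2 * p / q) * q ^ 2 = ((4 * k * p ^ 2 : ℤ) : ℚ) := by
      push_cast
      field_simp
      ring
    have a2 : ((k : ℚ) * (2 * p / q)) ^ 2 * (2 * p / q) * q ^ 4 =
        ((8 * k ^ 2 * p ^ 3 * q : ℤ) : ℚ) := by
      push_cast
      field_simp
      ring
    rw [a1, a2]
    exact h2 hodd
  · rw [ht4]
    have : (2 * p / q : ℚ) * (2 * r / q) ≠ 0 := by positivity
    intro h
    apply this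
    linarith [h, neg_mul_eq_mul_neg (2 * p / q : ℚ) (2 * r / q)]
  · rw [← scl _ _ ((q : ℚ) ^ 2 / 2) (by positivity), ht4]
    have a1 : -(2 * p / q * -(2 * r / q)) * (2 * p / q) * ((q : ℚ) ^ 2 / 2) ^ 2 =
        ((2 * p ^ 2 * q * r : ℤ) : ℚ) := by
      push_cast
      field_simp
    have a2 : (-(2 * p / q * -(2 * r / q))) ^ 2 * (2 * p / q) * ((q : ℚ) ^ 2 / 2) ^ 4 =
        ((2 * p ^ 3 * q ^ 3 * r ^ 2 : ℤ) : ℚ) := by
      push_cast
      field_simp
    rw [a1, a2]
    exact h3 hk1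

end Pool.Agent.G02.H22
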